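import Pool.Agent.Y428.Sp.Conv
import Pool.Agent.Y428.Sp.WB3

set_option autoImplicit false

namespace Pool.Agent.Results.MP_03a1f6_co.SpidersFewThetas

/-- the spider with length vector j: none is the centre, and some ⟨i, m⟩ is the vertex of leg i at
distance m + 1 from the centre -/
def Spider {s : ℕ} (j : Fin s → ℕ) : SimpleGraph (Option (Σ i : Fin s, Fin (j i))) :=
  SimpleGraph.fromRel (fun u v =>
    (∃ i m, u = none ∧ v = some ⟨i, m⟩ ∧ m.val = 0) ∨
    (∃ i m m', u = some ⟨i, m⟩ ∧ v = some ⟨i, m'⟩ ∧ m.val + 1 = m'.val))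

/-- the leaves of the spider -/
def Leaves {s : ℕ} (j : Fin s → ℕ) : Set (Option (Σ i : Fin s, Fin (j i))) :=
  {v | ∃ i m, v = some ⟨i, m⟩ ∧ m.val + 1 = j i}

/-- G contains the t-blowup of (T, R): t copies of T which agree on R and are disjoint elsewhere -/
def ContainsBlowup {W V : Type} (T : SimpleGraph W) (R : Set W) (t : ℕ) (G : SimpleGraph V) :
    Prop :=
  ∃ f : {p : W × ℕ // p.2 < t ∧ (p.1 ∈ R → p.2 = 0)} → V, Function.Injective f ∧
    ∀ a b : {p : W × ℕ // p.2 < t ∧ (p.1 ∈ R → p.2 = 0)},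
      T.Adj a.1.1 b.1.1 → (a.1.2 = b.1.2 ∨ a.1.1 ∈ R ∨ b.1.1 ∈ R) → G.Adj (f a) (f b)

/-- G contains L paths of length l which have the same two ends and are disjoint otherwise -/
def ContainsTheta (l L : ℕ) {V : Type} (G : SimpleGraph V) : Prop :=
  ∃ (x y : V) (p : Fin L → ℕ → V), x ≠ y ∧ (∀ i, p i 0 = x ∧ p i l = y) ∧
    (∀ i, ∀ m < l, G.Adj (p i m) (p i (m + 1))) ∧
    (∀ i m, 0 < m → m < l → p i m ≠ x ∧ p i m ≠ y) ∧
    (∀ i i' m m', 0 < m → m < l → 0 < m' → m' < l → p i m = p i' m' → i = i' ∧ m = m')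

open Pool.Agent.Y428.Sp in
lemma adj_of {s : ℕ} (j : Fin s → ℕ) (u v : Option (Σ i : Fin s, Fin (j i)))
    (h : (Spider j).Adj u v) : (ST j).Adj u v := by
  have key : ∀ u v : Option (Σ i : Fin s, Fin (j i)),
      ((∃ i m, u = none ∧ v = some ⟨i, m⟩ ∧ m.val = 0) ∨
      (∃ i m m', u = some ⟨i, m⟩ ∧ v = some ⟨i, m'⟩ ∧ m.val + 1 = m'.val)) → (ST j).Adj u v := by
    rintro u v (⟨i, m, rfl, rfl, h⟩ | ⟨i, m, m', rfl, rfl, h⟩)
    · have h1 := ST_adj_pos j i 0 (by have := m.2; omega)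
      rw [pos_zero, pos_some j i 1 le_rfl (by have := m.2; omega)] at h1
      have h2 : m = ⟨1 - 1, by have := m.2; omega⟩ := Fin.ext (by simp only; omega)
      rw [h2]
      exact h1
    · have h1 := ST_adj_pos j i (m.val + 1) (by have := m'.2; omega)
      rw [pos_some j i (m.val + 1) (by omega) (by have := m.2; omega),
        pos_some j i (m.val + 1 + 1) (by omega) (by have := m'.2; omega)] at h1
      have h2 : m' = ⟨m.val + 1 + 1 - 1, by have := m'.2; omega⟩ := Fin.ext (by simp only; omega)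
      have h3 : m = ⟨m.val + 1 - 1, by have := m.2; omega⟩ := Fin.ext (by simp only; omega)
      rw [h2]
      rw [← h3] at h1
      exact h1
  unfold Spider at h
  rw [SimpleGraph.fromRel_adj] at h
  rcases h.2 with h | h
  · exact key u v h
  · exact (key v u h).symm

open Pool.Agent.Y428.Sp in
lemma leaf_iff {s : ℕ} (j : Fin s → ℕ) (v : Option (Σ i : Fin s, Fin (j i))) (hj : ∀ i, 1 ≤ j i) :
    v ∈ Leaves j ↔ v ∈ Rt j := by
  rw [mem_Rt]
  constructor
  · rintro ⟨i, m, rfl, h⟩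
    refine ⟨i, ?_⟩
    rw [pos_some j i (j i) (hj i) le_rfl]
    have h2 : m = ⟨j i - 1, by have := m.2; omega⟩ := Fin.ext (by simp only; omega)
    rw [h2]
  · rintro ⟨i, rfl⟩
    refine ⟨i, ⟨j i - 1, by have := hj i; omega⟩, pos_some j i (j i) (hj i) le_rfl, ?_⟩
    have := hj i
    simp only
    omega

/-- Spiders in graphs without thetas whose paths are longer than all legs of the spider but one
(the second shortest leg, if i₀ is the shortest one) or longer by one than the leg i₀. -/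
theorem result :
    ∀ s : ℕ, 2 ≤ s → ∀ j : Fin s → ℕ, (∀ i, 1 ≤ j i) → ∀ k : ℕ, 2 ≤ k →
      (∀ i, j i ≤ k) → (s - 1) * k < ∑ i, j i → ∀ (i₀ : Fin s) (m : ℕ),
      (∀ i, i ≠ i₀ → m ≤ j i) → ∀ t L : ℕ, 0 < t →
        ∃ C : ℝ, ∀ n : ℕ, ∀ G : SimpleGraph (Fin n),
          ¬ ContainsBlowup (Spider j) (Leaves j) t G →
          (∀ l, 2 ≤ l → l ≤ k →
            m < l ∨ (l = j i₀ + 1 ∧ 2 ≤ j i₀ ∧ ∃ i, i ≠ i₀ ∧ j i % 2 = j i₀ % 2) →
            ¬ ContainsTheta l L G) →
          (G.edgeSet.ncard : ℝ) ≤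
            C * (n : ℝ) ^ (1 + ((s : ℝ) - 1) / ((∑ i, j i : ℕ) : ℝ)) := by
  intro s hs j hj k hk2 hk he i₀ m hm t L ht
  obtain ⟨C, hC⟩ := Pool.Agent.Y428.Sp.upper s hs j hj k hk2 hk he t ht
    {l | 2 ≤ l ∧ l ≤ k ∧
      (m < l ∨ (l = j i₀ + 1 ∧ 2 ≤ j i₀ ∧ ∃ i, i ≠ i₀ ∧ j i % 2 = j i₀ % 2))} L
    (fun K hK l h1 h2 => by
      by_cases hex : m < l ∨ (l = j i₀ + 1 ∧ 2 ≤ j i₀ ∧ ∃ i, i ≠ i₀ ∧ j i % 2 = j i₀ % 2)
      · exact Or.inl ⟨h1, h2, hex⟩
      · right
        push Not at hex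
        obtain ⟨h3, h4⟩ := hex
        rcases Nat.lt_or_ge (j i₀) l with h5 | h5
        · -- the leg i₀ is shorter than l
          by_cases h6 : j i₀ + 2 ≤ l
          · exact Pool.Agent.Y428.Sp.winD s j i₀ K t l hK ht (hj i₀) h5
              (fun i hi => h3.trans (hm i hi)) (Or.inl h6)
          · have h7 : l = j i₀ + 1 := by omega
            rcases Nat.lt_or_ge (j i₀) 2 with h8 | h8
            · have h9 : j i₀ = 1 := by have := hj i₀; omega
              have h10 : l = 2 := by omega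
              subst h10
              exact Pool.Agent.Y428.Sp.winB1 s j i₀ K t hK ht h9
                (fun i hi => h3.trans (hm i hi))
            · refine Pool.Agent.Y428.Sp.winD s j i₀ K t l hK ht (hj i₀) h5
                (fun i hi => h3.trans (hm i hi)) (Or.inr fun i hi => ?_)
              have h9 := h4 h7 h8 i hi
              have h10 := h3.trans (hm i hi)
              omega
        · have hall : ∀ i, l ≤ j i := by
            intro i
            by_cases hi : i = i₀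
            · rw [hi]
              exact h5
            · exact h3.trans (hm i hi)
          rcases Nat.lt_or_ge l 3 with h6 | h6
          · have : l = 2 := by omega
            subst this
            exact Pool.Agent.Y428.Sp.winB s j i₀ K t hK ht hall
          · exact Pool.Agent.Y428.Sp.winA s j i₀ K t l hK ht h6 hall)
  refine ⟨C, fun n G hG hΘ => hC n G ?_ ?_⟩
  · intro h
    exact hG (Pool.Agent.Y428.Sp.blow (Pool.Agent.Y428.Sp.ST j) (Spider j) (adj_of j)
      (Pool.Agent.Y428.Sp.Rt j) (Leaves j) (fun v => leaf_iff j v hj) t G h)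
  · intro l hl
    by_contra h
    exact hΘ l hl.1 hl.2.1 hl.2.2 (Pool.Agent.Y428.Sp.theta G l L (by have := hl.1; omega)
      (Finset.nonempty_iff_ne_empty.mpr h))

end Pool.Agent.Results.MP_03a1f6_co.SpidersFewThetas
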